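import Pool.Agent.S00865

set_option autoImplicit false

/-! The group of `S00865` in full: it is countable, every finitely generated subgroup is finite and
soluble, it has elements of order `p` and of order `q`, it has an abelian normal subgroup `M` of
exponent `q`, and it is the product of two `p`-subgroups which are both complements of `M`. -/

namespace Pool.Agent.Results.MP_1d00e6_al.LocallyFinite

open Equiv Pool.Agent.S00865

variable {N q : ℕ} [NeZero N]

theorem NN_finite (hq : 0 < q) (k : ℕ) : (NN N q k).Finite := by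
  have : NeZero q := ⟨by omega⟩
  induction k with
  | zero =>
    have h : NN N q 0 = Set.range (S N q) := by
      ext F
      constructor
      · rintro ⟨x, rfl⟩
        exact ⟨x, rfl⟩
      · rintro ⟨x, rfl⟩
        exact ⟨x, rfl⟩
    rw [h]
    exact Set.finite_range _
  | succ k ih =>
    have h1 : (Set.univ.pi (fun _ : ZMod N => NN N q k)).Finite := by
      have := ZMod.fintype N
      exact Set.Finite.pi' (fun _ => ih) |>.subset (by
        intro f hf
        simpa using hf)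
    refine Set.Finite.of_finite_image (f := fun F : ℕ → ZMod q => fun (j : ZMod N) (n : ℕ) =>
      F (cons N (j, n))) (h1.subset ?_) ?_
    · rintro _ ⟨F, hF, rfl⟩ j _
      exact hF j
    · intro F _ F' _ h
      funext m
      obtain ⟨⟨j, n⟩, rfl⟩ := (cons N).surjective m
      exact congrFun (congrFun h j) n

variable {hN : 1 < N} {hq : 0 < q}

/-- The elements of depth `k`. -/
def GK (N q : ℕ) [NeZero N] (hN : 1 < N) (hq : 0 < q) (k : ℕ) : Subgroup (GG N q hN hq) where
  carrier := {g | S N q 0 + Multiplicative.toAdd g.1.left ∈ NN N q k ∧ g.1.right ∈ AA N k}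
  mul_mem' := by
    rintro g h ⟨h1, h2⟩ ⟨h3, h4⟩
    refine ⟨?_, AA_mul k h2 h4⟩
    show S N q 0 + Multiplicative.toAdd (g.1 * h.1).left ∈ NN N q k
    rw [SemidirectProduct.mul_left, toAdd_mul, act_apply]
    have h5 := NN_affine k h1 (NN_comp k (NN_S hN hq k 0) (AA_inv k h2))
      (NN_comp k h3 (AA_inv k h2))
    convert h5 using 1
    funext n
    simp only [Pi.add_apply, Pi.sub_apply, Function.comp_apply]
    ring
  one_mem' := by
    refine ⟨?_, AA_one k⟩
    have h : S N q 0 + Multiplicative.toAdd ((1 : GG N q hN hq)).1.left = S N q 0 := by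
      funext n
      simp
    rw [h]
    exact NN_S hN hq k 0
  inv_mem' := by
    rintro g ⟨h1, h2⟩
    refine ⟨?_, AA_inv k h2⟩
    show S N q 0 + Multiplicative.toAdd (g.1⁻¹).left ∈ NN N q k
    rw [SemidirectProduct.inv_left, act_apply, toAdd_inv]
    have h5 := NN_affine k (NN_comp k (NN_S hN hq k 0) h2) (NN_comp k h1 h2) (NN_S hN hq k 0)
    convert h5 using 1
    funext n
    simp only [Pi.add_apply, Pi.sub_apply, Function.comp_apply, Pi.neg_apply, inv_inv]
    ring

theorem GK_finite (k : ℕ) : ((GK N q hN hq k : Subgroup (GG N q hN hq)) : Set (GG N q hN hq)).Finite := by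
  have h1 := (NN_finite (N := N) hq k).prod (AA_finite (N := N) k)
  refine Set.Finite.of_finite_image (f := fun g : GG N q hN hq =>
    (S N q 0 + Multiplicative.toAdd g.1.left, g.1.right)) (h1.subset ?_) ?_
  · rintro _ ⟨g, hg, rfl⟩
    exact hg
  · intro g _ h _ hgh
    have h2 := congrArg Prod.fst hgh
    have h3 := congrArg Prod.snd hgh
    apply Subtype.ext
    ext1
    · apply Multiplicative.toAdd.injective
      exact add_left_cancel h2
    · exact h3

theorem GK_exists (g : GG N q hN hq) : ∃ k, ∀ l, k ≤ l → g ∈ GK N q hN hq l := by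
  obtain ⟨⟨k, hk⟩, m, hm⟩ := g.2
  exact ⟨max k m, fun l hl => ⟨NN_mono hN hq (le_trans (le_max_left _ _) hl) hk,
    AA_mono (le_trans (le_max_right _ _) hl) hm⟩⟩

theorem countable : Countable (GG N q hN hq) := by
  rw [← Set.countable_univ_iff]
  refine (Set.countable_iUnion (fun k => (GK_finite (N := N) (q := q) (hN := hN) (hq := hq) k).countable)).mono ?_
  intro g _
  obtain ⟨k, hk⟩ := GK_exists g
  exact Set.mem_iUnion.2 ⟨k, hk k le_rfl⟩

theorem fg_le {H : Subgroup (GG N q hN hq)} (h : H.FG) : ∃ k, H ≤ GK N q hN hq k := by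
  obtain ⟨s, rfl⟩ := h
  choose k hk using fun g : GG N q hN hq => GK_exists g
  refine ⟨s.sup k, ?_⟩
  rw [Subgroup.closure_le]
  intro g hg
  exact hk g _ (Finset.le_sup hg)

/-- The abelian normal subgroup. -/
def MM (N q : ℕ) [NeZero N] (hN : 1 < N) (hq : 0 < q) : Subgroup (GG N q hN hq) :=
  (SemidirectProduct.rightHom.comp (GG N q hN hq).subtype).ker

theorem mem_MM {g : GG N q hN hq} : g ∈ MM N q hN hq ↔ g.1.right = 1 := Iff.rfl

theorem MM_comm {x y : GG N q hN hq} (hx : x ∈ MM N q hN hq) (hy : y ∈ MM N q hN hq) :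
    x * y = y * x := by
  have hx' : x.1.right = 1 := hx
  have hy' : y.1.right = 1 := hy
  apply Subtype.ext
  show x.1 * y.1 = y.1 * x.1
  ext1
  · rw [SemidirectProduct.mul_left, SemidirectProduct.mul_left, hx', hy']
    simp [mul_comm]
  · rw [SemidirectProduct.mul_right, SemidirectProduct.mul_right, hx', hy']

theorem compl_of {H : Subgroup (GG N q hN hq)}
    (h1 : ∀ g : GG N q hN hq, g ∈ H → g.1.right = 1 → g = 1)
    (h2 : ∀ g : GG N q hN hq, ∃ a ∈ H, a.1.right = g.1.right) :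
    H.IsComplement' (MM N q hN hq) := by
  apply Subgroup.isComplement'_of_disjoint_and_mul_eq_univ
  · rw [Subgroup.disjoint_def]
    intro g hg hg'
    exact h1 g hg hg'
  · rw [Set.eq_univ_iff_forall]
    intro g
    obtain ⟨a, ha, hag⟩ := h2 g
    refine Set.mem_mul.2 ⟨a, ha, a⁻¹ * g, ?_, by rw [mul_inv_cancel_left]⟩
    show ((a⁻¹ * g : GG N q hN hq)).1.right = 1
    show (a.1⁻¹ * g.1).right = 1
    rw [SemidirectProduct.mul_right, SemidirectProduct.inv_right, hag, inv_mul_cancel]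

theorem AS_compl : (AS N q hN hq).IsComplement' (MM N q hN hq) := by
  apply compl_of
  · intro g hg hg'
    apply Subtype.ext
    ext1
    · exact hg
    · exact hg'
  · intro g
    exact ⟨⟨SemidirectProduct.inr g.1.right, M_zero, g.2.2⟩, rfl, rfl⟩

theorem BS_compl : (BS N q hN hq).IsComplement' (MM N q hN hq) := by
  apply compl_of
  · intro g hg hg'
    apply Subtype.ext
    ext1
    · have h2 : Multiplicative.toAdd g.1.left + S N q 0 ∘ (g.1.right⁻¹ : Perm ℕ) = S N q 0 := hg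
      rw [hg', inv_one, Perm.coe_one, Function.comp_id] at h2
      exact add_eq_right.1 h2
    · exact hg'
  · intro g
    have h1 := Aff_affine hN hq (Aff_S N q 0) (Aff_comp hN hq (Aff_S N q 0) (inv_mem g.2.2))
      (Aff_S N q 0)
    have h2 : (S N q 0 - S N q 0 ∘ (g.1.right⁻¹ : Perm ℕ) : ℕ → ZMod q) ∈ Mset N q := by
      show S N q 0 + (S N q 0 - S N q 0 ∘ (g.1.right⁻¹ : Perm ℕ)) ∈ Aff N q
      convert h1 using 1
      abel
    refine ⟨⟨⟨Multiplicative.ofAdd (S N q 0 - S N q 0 ∘ (g.1.right⁻¹ : Perm ℕ)), g.1.right⟩,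
      h2, g.2.2⟩, ?_, rfl⟩
    show (S N q 0 - S N q 0 ∘ (g.1.right⁻¹ : Perm ℕ)) + S N q 0 ∘ (g.1.right⁻¹ : Perm ℕ) = S N q 0
    abel

/-- **Locally soluble `{p,q}`-groups factorized by two `p`-subgroups.**  For all distinct primes
`p` and `q` there is a countable group `G`, the union of its finite soluble `{p,q}`-subgroups, with
elements of order `p` and of order `q`, an abelian normal subgroup `M` of exponent `q`, and two
`p`-subgroups `A`, `B`, both complements of `M` in `G`, with `G = A B`. -/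
theorem result (p q : ℕ) (hp : p.Prime) (hq : q.Prime) (hpq : p ≠ q) :
    ∃ (G : Type) (_ : Group G) (A B M : Subgroup G),
      Countable G ∧
      (∀ g : G, IsOfFinOrder g ∧ ∀ r : ℕ, r.Prime → r ∣ orderOf g → r = p ∨ r = q) ∧
      (∃ g : G, orderOf g = p) ∧ (∃ g : G, orderOf g = q) ∧
      (∀ H : Subgroup G, H.FG → Finite H ∧ IsSolvable H) ∧
      IsPGroup p A ∧ IsPGroup p B ∧ (∀ g : G, ∃ a ∈ A, ∃ b ∈ B, g = a * b) ∧
      M.Normal ∧ (∀ x ∈ M, ∀ y ∈ M, x * y = y * x) ∧ (∀ x ∈ M, x ^ q = 1) ∧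
      A.IsComplement' M ∧ B.IsComplement' M := by
  have : NeZero (p ^ q) := ⟨pow_ne_zero _ hp.ne_zero⟩
  have hqN : q < p ^ q := Nat.lt_pow_self hp.one_lt
  have hN : 1 < p ^ q := hq.one_lt.trans hqN
  obtain ⟨h1, h2, h3, h4, h5, h6⟩ :=
    main (N := p ^ q) (hN := hN) (hq := hq.pos) hp hq hpq rfl hqN.le
  have hpow : ∀ g : GG (p ^ q) q hN hq.pos, ∃ k, g ^ (p ^ k * q) = 1 := by
    intro g
    obtain ⟨k, hk⟩ := exists_pow_right g.2
    refine ⟨q * k, Subtype.ext ?_⟩
    show g.1 ^ (p ^ (q * k) * q) = 1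
    rw [pow_mul, pow_mul]
    exact pow_q_of_right hk
  refine ⟨GG (p ^ q) q hN hq.pos, inferInstance, AS (p ^ q) q hN hq.pos, BS (p ^ q) q hN hq.pos,
    MM (p ^ q) q hN hq.pos, countable, ?_, ?_, ?_, ?_, ?_, ?_, factor hqN.le, ?_, ?_, ?_,
    AS_compl, BS_compl⟩
  · intro g
    refine ⟨h1 g, fun r hr hrg => ?_⟩
    obtain ⟨a, b, hab⟩ := h2 g
    rw [hab, hr.dvd_mul] at hrg
    rcases hrg with h | h
    · exact Or.inl ((Nat.prime_dvd_prime_iff_eq hr hp).1 (hr.dvd_of_dvd_pow h))
    · exact Or.inr ((Nat.prime_dvd_prime_iff_eq hr hq).1 (hr.dvd_of_dvd_pow h))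
  · -- an element of order `p`
    have : ∃ g : GG (p ^ q) q hN hq.pos, ∀ n, g ^ (q ^ n) ≠ 1 := by
      simpa [IsPGroup] using h4
    obtain ⟨g, hg⟩ := this
    obtain ⟨a, b, hab⟩ := h2 g
    have ha : a ≠ 0 := by
      rintro rfl
      apply hg b
      rw [pow_zero, one_mul] at hab
      rw [← hab]
      exact pow_orderOf_eq_one g
    obtain ⟨c, rfl⟩ := Nat.exists_eq_succ_of_ne_zero ha
    refine ⟨g ^ (p ^ c * q ^ b), ?_⟩
    rw [orderOf_pow_of_dvd (mul_ne_zero (pow_ne_zero _ hp.ne_zero) (pow_ne_zero _ hq.ne_zero))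
      (by rw [hab, Nat.succ_eq_add_one, pow_succ]; exact ⟨p, by ring⟩), hab]
    rw [Nat.succ_eq_add_one, pow_succ]
    apply Nat.div_eq_of_eq_mul_left (Nat.mul_pos (pow_pos hp.pos _) (pow_pos hq.pos _))
    ring
  · -- an element of order `q`
    have : ∃ g : GG (p ^ q) q hN hq.pos, ∀ n, g ^ (p ^ n) ≠ 1 := by
      simpa [IsPGroup] using h3
    obtain ⟨g, hg⟩ := this
    obtain ⟨k, hk⟩ := hpow g
    have : Fact q.Prime := ⟨hq⟩
    refine ⟨g ^ (p ^ k), orderOf_eq_prime ?_ (hg k)⟩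
    rw [← pow_mul, hk]
  · intro H hH
    obtain ⟨k, hk⟩ := fg_le hH
    refine ⟨?_, ?_⟩
    · have hf := GK_finite (N := p ^ q) (q := q) (hN := hN) (hq := hq.pos) k
      exact (hf.subset hk).to_subtype
    · obtain ⟨s, rfl⟩ := hH
      exact solvable hp rfl s
  · rintro ⟨a, ha⟩
    obtain ⟨k, hk⟩ := exists_pow_right a.2
    refine ⟨q * k, Subtype.ext (Subtype.ext ?_)⟩
    show a.1 ^ (p ^ (q * k)) = 1
    rw [pow_mul]
    have h1 : a ^ ((p ^ q) ^ k) ∈ AS (p ^ q) q hN hq.pos := pow_mem ha _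
    ext1
    · exact h1
    · exact hk
  · rintro ⟨a, ha⟩
    obtain ⟨k, hk⟩ := exists_pow_right a.2
    refine ⟨q * k, Subtype.ext (Subtype.ext ?_)⟩
    show a.1 ^ (p ^ (q * k)) = 1
    rw [pow_mul]
    have h1 : a ^ ((p ^ q) ^ k) ∈ BS (p ^ q) q hN hq.pos := pow_mem ha _
    ext1
    · have h2 : Multiplicative.toAdd (a.1 ^ ((p ^ q) ^ k)).left
        + S (p ^ q) q 0 ∘ (((a.1 ^ ((p ^ q) ^ k)).right)⁻¹ : Perm ℕ) = S (p ^ q) q 0 := h1
      rw [hk, inv_one, Perm.coe_one, Function.comp_id] at h2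
      exact add_eq_right.1 h2
    · exact hk
  · rw [MM]
    infer_instance
  · intro x hx y hy
    exact MM_comm hx hy
  · intro x hx
    exact Subtype.ext (pow_q_of_right (mem_MM.1 hx))

end Pool.Agent.Results.MP_1d00e6_al.LocallyFinite
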